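import Mathlib
import Pool.Agent.V11114.Quat4

set_option autoImplicit false

/-!
MP_9437d9_an.  If the quaternion system `(∗)` is stably bounded then every root subspace of the
companion matrix `C` is `G`-positive or `G`-negative.
-/

namespace Pool.Agent.Results.MP_9437d9_an.DefiniteRoot

open Matrix Finset
open scoped Quaternion
open Pool.Agent.V11114.Quat

variable {l n : ℕ}

/-- `M` is `G`-positive: `x* G x` is a positive real number for every nonzero `x` in `M`. -/
def GPositive (A : ℕ → Matrix (Fin n) (Fin n) H) (M : Set (Fin l × Fin n → H)) : Prop :=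
  ∀ x ∈ M, x ≠ 0 → ∃ r : ℝ, 0 < r ∧ star x ⬝ᵥ gram l n A *ᵥ x = (r : H)

/-- `M` is `G`-negative: `x* G x` is a negative real number for every nonzero `x` in `M`. -/
def GNegative (A : ℕ → Matrix (Fin n) (Fin n) H) (M : Set (Fin l × Fin n → H)) : Prop :=
  ∀ x ∈ M, x ≠ 0 → ∃ r : ℝ, r < 0 ∧ star x ⬝ᵥ gram l n A *ᵥ x = (r : H)

/-- `G` is hermitian. -/
theorem gram_herm {A : ℕ → Matrix (Fin n) (Fin n) H} (hA : IsSys l n A) :
    (gram l n A)ᴴ = gram l n A := by
  ext1 p q
  rw [Matrix.conjTranspose_apply]
  unfold Pool.Agent.V11114.Quat.gram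
  simp only [Matrix.of_apply]
  have hcomm : q.1.val + p.1.val + 1 = p.1.val + q.1.val + 1 := by ring
  rw [hcomm]
  split_ifs with h
  · rw [star_mul, star_pow, star_neg, star_one]
    have h1 : star (A (p.1.val + q.1.val + 1) q.2 p.2)
        = (A (p.1.val + q.1.val + 1))ᴴ p.2 q.2 := by rw [Matrix.conjTranspose_apply]
    rw [h1]
    rcases Nat.even_or_odd (p.1.val + q.1.val + 1) with he | ho
    · rw [hA.2.1 _ h he, Matrix.neg_apply]
      rcases Nat.even_or_odd p.1.val with hp | hp
      · have hq : Odd q.1.val := by
          rcases Nat.even_or_odd q.1.val with hq | hq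
          · exfalso
            have := (hp.add hq).add_one
            exact (Nat.not_even_iff_odd.mpr this) he
          · exact hq
        rw [hp.neg_one_pow, hq.neg_one_pow]; simp
      · have hq : Even q.1.val := by
          rcases Nat.even_or_odd q.1.val with hq | hq
          · exact hq
          · exfalso
            have := (hp.add_odd hq).add_one
            exact (Nat.not_even_iff_odd.mpr this) he
        rw [hp.neg_one_pow, hq.neg_one_pow]; simp
    · rw [hA.1 _ h ho]
      rcases Nat.even_or_odd p.1.val with hp | hp
      · have hq : Even q.1.val := by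
          rcases Nat.even_or_odd q.1.val with hq | hq
          · exact hq
          · exfalso
            have := (hp.add_odd hq).add_one
            exact (Nat.not_odd_iff_even.mpr this) ho
        rw [hp.neg_one_pow, hq.neg_one_pow]; simp
      · have hq : Odd q.1.val := by
          rcases Nat.even_or_odd q.1.val with hq | hq
          · exfalso
            have := (hp.add_even hq).add_one
            exact (Nat.not_odd_iff_even.mpr this) ho
          · exact hq
        rw [hp.neg_one_pow, hq.neg_one_pow]; simp
  · simp

theorem form_real {A : ℕ → Matrix (Fin n) (Fin n) H} (hA : IsSys l n A)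
    (x : Fin l × Fin n → H) : star x ⬝ᵥ gram l n A *ᵥ x = ((form l n A x : ℝ) : H) := by
  have h1 : star (star x ⬝ᵥ gram l n A *ᵥ x) = star x ⬝ᵥ gram l n A *ᵥ x := by
    conv_rhs => rw [← gram_herm hA]
    unfold Matrix.mulVec dotProduct
    simp only [Finset.mul_sum, star_sum]
    rw [Finset.sum_comm]
    refine Finset.sum_congr rfl fun b _ => Finset.sum_congr rfl fun a _ => ?_
    simp only [Pi.star_apply, star_mul, star_star, Matrix.conjTranspose_apply]
    rw [mul_assoc]
  exact Quaternion.star_eq_self.mp h1

/-- Q1: if `(∗)` is stably bounded, then every root subspace of `C` is `G`-positive or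
`G`-negative. -/
theorem result (l n : ℕ) (hl : 1 ≤ l) (A : ℕ → Matrix (Fin n) (Fin n) H) (hA : IsSys l n A)
    (hS : StablyBdd l A) (lam : H) (hlam : IsEig (comp l n A) lam) :
    GPositive A (rootSub l n A lam) ∨ GNegative A (rootSub l n A lam) := by
  rcases main hl hA hS lam hlam with h | h
  · exact Or.inl fun x hx hx0 => ⟨_, h x hx hx0, form_real hA x⟩
  · exact Or.inr fun x hx hx0 => ⟨_, h x hx hx0, form_real hA x⟩

end Pool.Agent.Results.MP_9437d9_an.DefiniteRoot
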